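import Mathlib
import Pool.Agent.X93.ST.Rays2
set_option autoImplicit false

/-!
# Stein's restriction conjecture along almost every ray, with a dimension bound

In polar coordinates, Stein's conjecture says that for a bounded density `g` on the unit sphere of
`ℝ^n` and `p > 2n/(n-1)` the integrals

`ray g p ω = ∫_0^∞ |(g dσ)^(rω)|^p r^(n-1) dr`

of `|(g dσ)^|^p` along the rays through the origin have a finite integral over the directions `ω`.
We prove, for every `g` in `L²(σ)`, every `n ≥ 2` and every `p ≥ 2`, that the set of the directions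
`ω` with `ray g p ω = ∞` has Hausdorff dimension at most `1 + 2(n-1)/p`, and that
`ray g p ω < ∞` for almost every direction if `p > 2(n-1)/(n-2)`. For `n ≥ 4` this is below the
Stein-Tomas exponent `2(n+1)/(n-1)`, below which the `L^p` norm itself can be infinite for `g` in
`L²(σ)`.
-/

namespace Pool.Agent.Results.MP_6cbfb8_an.ExceptionalDirections

open MeasureTheory Metric Set
open scoped ENNReal RealInnerProductSpace

/-- Euclidean space -/
abbrev E (n : ℕ) := EuclideanSpace ℝ (Fin n)

/-- surface measure on the unit sphere -/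
noncomputable def sigma (n : ℕ) : Measure (sphere (0 : E n) 1) := (volume : Measure (E n)).toSphere

/-- the Fourier transform of the measure `g dσ` -/
noncomputable def ft {n : ℕ} (g : sphere (0 : E n) 1 → ℂ) (ξ : E n) : ℂ :=
  ∫ x, Complex.exp (-(2 * Real.pi * ⟪(x : E n), ξ⟫ : ℝ) * Complex.I) * g x ∂(sigma n)

/-- the integral of `|(g dσ)^|^p`, in polar coordinates, along the ray in direction `ω` -/
noncomputable def ray {n : ℕ} (g : sphere (0 : E n) 1 → ℂ) (p : ℝ) (ω : E n) : ℝ≥0∞ :=
  ∫⁻ r in Ioi (0 : ℝ), ‖ft g (r • ω)‖ₑ ^ p * ENNReal.ofReal (r ^ (n - 1))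

theorem result (n : ℕ) (hn : 2 ≤ n) (g : sphere (0 : E n) 1 → ℂ) (hg : MemLp g 2 (sigma n))
    (p : ℝ) (hp : 2 ≤ p) :
    dimH {ω : E n | ‖ω‖ = 1 ∧ ray g p ω = ⊤} ≤ ENNReal.ofReal (1 + 2 * ((n : ℝ) - 1) / p) ∧
      (2 * ((n : ℝ) - 1) < p * (n - 2) →
        ∀ᵐ ω : sphere (0 : E n) 1 ∂(sigma n), ray g p (ω : E n) < ⊤) := by
  refine ⟨Pool.Agent.X93.ST.dim_dirs hn g hg p hp, fun h => ?_⟩
  have hn3 : 3 ≤ n := by
    by_contra hc
    have : n = 2 := by omega
    subst this
    norm_num at h
  have hn3' : (3 : ℝ) ≤ n := by exact_mod_cast hn3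
  refine Pool.Agent.X93.ST.ae_dirs hn3 g hg p ?_
  rw [div_lt_iff₀ (by linarith)]
  exact h

end Pool.Agent.Results.MP_6cbfb8_an.ExceptionalDirections
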