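import Mathlib
import Pool.Agent.X331.SI.Main2
import Pool.Agent.X331.SI.Unif
set_option autoImplicit false

/-!
# Stein's restriction conjecture modulo the integers

Let `n ≥ 3` and let `σ` be surface measure on the unit sphere of `ℝ^n`. Call a real density `f`
*good* if the Fourier transform of `f dσ` is in `L^p(ℝ^n)` for every `p > 2n/(n-1)`, if `f` is in
`L^q(σ)` for every `q < ∞` and if `∫ Φ(|f|) dσ < ∞`, where `Φ` is an increasing function fixed in
advance (it may grow as fast as one likes, so that `f` is as close to bounded as one wants). Stein's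
conjecture says that all bounded densities have transforms in these `L^p`.

We prove that nothing can be seen modulo a lattice of `ℝ`: every measurable real function on the
sphere is good after adding a suitable function with values in `ℤT`; every measurable function
with values in the unit circle is `e^{2πih}` with `h` good; every integer-valued measurable function
is congruent modulo `m` to a good integer-valued function. All norms of the transforms
in `L^r`, `p₀ ≤ r ≤ ∞`, can be made arbitrarily small here.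

It follows that Stein's conjecture is equivalent to the stability of good densities under one
single periodic function, e.g. `cos`, or `(-1)^k` for integer-valued densities: let `F` be any
bounded Borel function on `ℝ` (or any function on `ℤ`) which is periodic and not constant. For each
exponent `p > 2n/(n-1)`, all bounded densities have transforms in `L^p` if and only if
`F ∘ h` has for every good `h`.
-/

namespace Pool.Agent.Results.MP_6cbfb8_an.IntegerShifts

open MeasureTheory Metric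
open scoped ENNReal RealInnerProductSpace

/-- Euclidean space -/
abbrev E (n : ℕ) := EuclideanSpace ℝ (Fin n)

/-- surface measure on the unit sphere -/
noncomputable def sigma (n : ℕ) : Measure (sphere (0 : E n) 1) := (volume : Measure (E n)).toSphere

/-- the Fourier transform of the measure `g dσ` -/
noncomputable def ft {n : ℕ} (g : sphere (0 : E n) 1 → ℂ) (ξ : E n) : ℂ :=
  ∫ x, Complex.exp (-(2 * Real.pi * ⟪(x : E n), ξ⟫ : ℝ) * Complex.I) * g x ∂(sigma n)

/-- Stein's conjecture in `ℝ^n` at the exponent `p`: the transform of every measure with bounded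
density is in `L^p(ℝ^n)`. -/
def SteinAt (n : ℕ) (p : ℝ) : Prop := ∀ g : sphere (0 : E n) 1 → ℂ, Measurable g →
  (∃ M : ℝ, ∀ x, ‖g x‖ ≤ M) → MemLp (ft g) (ENNReal.ofReal p)

/-- The good real densities: measurable, `∫ Φ(|f|) dσ < ∞`, in `L^q(σ)` for all `q < ∞`, and with
the transform of `f dσ` in `L^p(ℝ^n)` for all `p > 2n/(n-1)`. -/
def Good {n : ℕ} (Φ : ℝ → ℝ) (f : sphere (0 : E n) 1 → ℝ) : Prop :=
  Measurable f ∧ ∫⁻ x, ENNReal.ofReal (Φ |f x|) ∂(sigma n) < ⊤ ∧
    (∀ q : ℝ≥0∞, q ≠ ⊤ → MemLp f q (sigma n)) ∧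
    ∀ p : ℝ, 2 * (n : ℝ) / (n - 1) < p → MemLp (ft fun x => (f x : ℂ)) (ENNReal.ofReal p)

/-- The transform of `f dσ` has norm at most `η` in all `L^r(ℝ^n)`, `p₀ ≤ r ≤ ∞`. -/
def Small {n : ℕ} (p₀ η : ℝ) (f : sphere (0 : E n) 1 → ℝ) : Prop :=
  ∀ r : ℝ≥0∞, ENNReal.ofReal p₀ ≤ r →
    eLpNorm (ft fun x => (f x : ℂ)) r volume ≤ ENNReal.ofReal η

/-- Every measurable real function is good modulo `ℤT`. -/
def Shifts (n : ℕ) : Prop := ∀ Φ : ℝ → ℝ, Monotone Φ → ∀ p₀ : ℝ, 2 * (n : ℝ) / (n - 1) < p₀ →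
  ∀ η : ℝ, 0 < η → ∀ T : ℝ, 0 < T → ∀ f : sphere (0 : E n) 1 → ℝ, Measurable f →
  ∃ k : sphere (0 : E n) 1 → ℤ, Measurable k ∧ Good Φ (fun x => f x + k x * T) ∧
    Small p₀ η fun x => f x + k x * T

/-- Every measurable unimodular function is the exponential of a good density. -/
def Phases (n : ℕ) : Prop := ∀ Φ : ℝ → ℝ, Monotone Φ → ∀ p₀ : ℝ, 2 * (n : ℝ) / (n - 1) < p₀ →
  ∀ η : ℝ, 0 < η → ∀ u : sphere (0 : E n) 1 → ℂ, Measurable u → (∀ x, ‖u x‖ = 1) →
  ∃ h : sphere (0 : E n) 1 → ℝ, Good Φ h ∧ Small p₀ η h ∧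
    ∀ x, u x = Complex.exp (2 * Real.pi * h x * Complex.I)

/-- Every integer-valued measurable function is congruent modulo `m` to a good one. -/
def Residues (n : ℕ) : Prop := ∀ Φ : ℝ → ℝ, Monotone Φ → ∀ p₀ : ℝ, 2 * (n : ℝ) / (n - 1) < p₀ →
  ∀ η : ℝ, 0 < η → ∀ m : ℕ, 0 < m → ∀ j : sphere (0 : E n) 1 → ℤ, Measurable j →
  ∃ k : sphere (0 : E n) 1 → ℤ, Measurable k ∧ (∀ x, k x ≡ j x [ZMOD m]) ∧
    Good Φ (fun x => (k x : ℝ)) ∧ Small p₀ η fun x => (k x : ℝ)

/-- Stein's conjecture is the stability of good densities under one periodic function. -/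
def RealCriterion (n : ℕ) : Prop := ∀ Φ : ℝ → ℝ, Monotone Φ → ∀ F : ℝ → ℂ, Measurable F →
  (∃ M : ℝ, ∀ t, ‖F t‖ ≤ M) → ∀ T : ℝ, 0 < T → (∀ t, F (t + T) = F t) → (∃ s t, F s ≠ F t) →
  ∀ p : ℝ, 2 * (n : ℝ) / (n - 1) < p → (SteinAt n p ↔
    ∀ h : sphere (0 : E n) 1 → ℝ, Good Φ h → MemLp (ft fun x => F (h x)) (ENNReal.ofReal p))

/-- Stein's conjecture is the stability of good integer-valued densities under one periodic
function. -/
def IntegerCriterion (n : ℕ) : Prop := ∀ Φ : ℝ → ℝ, Monotone Φ → ∀ F : ℤ → ℂ,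
  ∀ m : ℕ, 0 < m → (∀ k, F (k + m) = F k) → (∃ i j, F i ≠ F j) →
  ∀ p : ℝ, 2 * (n : ℝ) / (n - 1) < p → (SteinAt n p ↔
    ∀ k : sphere (0 : E n) 1 → ℤ, Measurable k → Good Φ (fun x => (k x : ℝ)) →
      MemLp (ft fun x => F (k x)) (ENNReal.ofReal p))

theorem shifts (n : ℕ) (hn : 3 ≤ n) : Shifts n := by
  intro Φ hΦ p₀ hp₀ η hη T hT f hf
  obtain ⟨k, hk, h1, h2, h3, h4⟩ := Pool.Agent.X331.SI.shifts2 n hn (fun x => f x / T)
    (hf.div_const T) (fun t => Φ (T * t)) (fun s t hst => hΦ (by gcongr)) p₀ hp₀ (η / T)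
    (by positivity)
  have e1 : ∀ x, f x + k x * T = T * (f x / T + k x) := fun x => by field_simp
  have hkR : Measurable fun x => ((k x : ℤ) : ℝ) := measurable_from_top.comp hk
  have e2 : ft (fun x => ((f x + k x * T : ℝ) : ℂ)) =
      fun ξ => (T : ℂ) * ft (fun x => ((f x / T + k x : ℝ) : ℂ)) ξ := by
    funext ξ
    unfold ft
    rw [← integral_const_mul]
    congr 1
    funext x
    simp only
    rw [e1 x]
    push_cast
    ring
  refine ⟨k, hk, ⟨hf.add (hkR.mul_const T), ?_, ?_, ?_⟩, ?_⟩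
  · refine lt_of_le_of_lt (le_of_eq ?_) h1
    refine lintegral_congr fun x => ?_
    simp only
    rw [e1 x, abs_mul, abs_of_pos hT]
  · intro q hq
    have h5 := (h2 q hq).const_mul T
    simp_rw [e1]
    exact h5
  · intro p hp
    rw [e2]
    exact (h3 p hp).const_mul _
  · intro r hr
    rw [e2]
    have h5 := h4 r hr
    have h6 : eLpNorm (fun ξ => (T : ℂ) * ft (fun x => ((f x / T + k x : ℝ) : ℂ)) ξ) r volume =
        ‖(T : ℂ)‖ₑ * eLpNorm (ft (fun x => ((f x / T + k x : ℝ) : ℂ))) r volume :=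
      eLpNorm_const_smul (T : ℂ) _ r volume
    rw [h6]
    have h7 : ‖(T : ℂ)‖ₑ = ENNReal.ofReal T := by
      rw [← ofReal_norm, Complex.norm_real, Real.norm_eq_abs, abs_of_pos hT]
    rw [h7]
    calc ENNReal.ofReal T * eLpNorm (ft (fun x => ((f x / T + k x : ℝ) : ℂ))) r volume
        ≤ ENNReal.ofReal T * ENNReal.ofReal (η / T) := mul_le_mul_right h5 _
      _ = ENNReal.ofReal η := by
          rw [← ENNReal.ofReal_mul hT.le]
          congr 1
          field_simp

theorem phases (n : ℕ) (hn : 3 ≤ n) : Phases n := by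
  intro Φ hΦ p₀ hp₀ η hη u hu hu1
  obtain ⟨k, hk, h1, h2⟩ := shifts n hn Φ hΦ p₀ hp₀ η hη 1 one_pos
    (fun x => Complex.arg (u x) / (2 * Real.pi)) ((Complex.measurable_arg.comp hu).div_const _)
  refine ⟨_, h1, h2, fun x => ?_⟩
  have h3 : (2 * Real.pi * ((Complex.arg (u x) / (2 * Real.pi) + k x * 1 : ℝ) : ℂ) * Complex.I) =
      Complex.arg (u x) * Complex.I + k x * (2 * Real.pi * Complex.I) := by
    have : (Real.pi : ℂ) ≠ 0 := by exact_mod_cast Real.pi_ne_zero
    push_cast
    field_simp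
  rw [h3, Complex.exp_add, Complex.exp_int_mul_two_pi_mul_I, mul_one]
  have h4 := Complex.norm_mul_exp_arg_mul_I (u x)
  rw [hu1 x] at h4
  simpa using h4.symm

theorem residues (n : ℕ) (hn : 3 ≤ n) : Residues n := by
  intro Φ hΦ p₀ hp₀ η hη m hm j hj
  have hjR : Measurable fun x => ((j x : ℤ) : ℝ) := measurable_from_top.comp hj
  obtain ⟨k, hk, h1, h2⟩ := shifts n hn Φ hΦ p₀ hp₀ η hη m (by exact_mod_cast hm)
    (fun x => (j x : ℝ)) hjR
  have e1 : (fun x => (j x : ℝ) + k x * (m : ℝ)) = fun x => ((j x + k x * m : ℤ) : ℝ) := by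
    funext x
    push_cast
    ring
  rw [e1] at h1 h2
  refine ⟨fun x => j x + k x * m, ?_, fun x => ?_, h1, h2⟩
  · exact hj.add (hk.mul_const _)
  · exact (Int.modEq_iff_dvd.2 ⟨-k x, by ring⟩)

/-- Two-valued densities determine Stein's conjecture at one exponent. -/
theorem stein_of (n : ℕ) (hn : 3 ≤ n) (p : ℝ) (hp : 2 * (n : ℝ) / (n - 1) < p) (a b : ℂ)
    (hab : a ≠ b) (h : ∀ A : Set (sphere (0 : E n) 1), MeasurableSet A →
      ∃ G : sphere (0 : E n) 1 → ℂ, (∀ x ∈ A, G x = a) ∧ (∀ x, x ∉ A → G x = b) ∧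
        MemLp (ft G) (ENNReal.ofReal p)) : SteinAt n p := by
  have hn1 : (1 : ℝ) < n := by exact_mod_cast (by omega : 1 < n)
  have hpc : 2 < 2 * (n : ℝ) / (n - 1) := by
    rw [lt_div_iff₀ (by linarith)]; linarith
  rintro g hg ⟨M, hM⟩
  refine Pool.Agent.X331.SI.of_sets hn p (by linarith) (fun A hA => ?_) g hg M hM
  obtain ⟨G, h1, h2, h3⟩ := h A hA
  obtain ⟨H, -, h5, h6⟩ := h ∅ MeasurableSet.empty
  have hab' : a - b ≠ 0 := sub_ne_zero.2 hab
  have hH : H = fun _ => b := funext fun x => h5 x (by simp)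
  have hG : G = fun x => (a - b) * Pool.Agent.X331.SI.ind A x + b := by
    funext x
    unfold Pool.Agent.X331.SI.ind
    by_cases hx : x ∈ A
    · rw [h1 x hx, Set.indicator_of_mem hx]; ring
    · rw [h2 x hx, Set.indicator_of_notMem hx]; ring
  have hi1 := Pool.Agent.X331.SI.ind_int hA
  have e1 : Pool.Agent.Results.MP_6cbfb8_an.RidgeDensities.ft (Pool.Agent.X331.SI.ind A) =
      fun ξ => (a - b)⁻¹ * (ft G ξ - ft H ξ) := by
    funext ξ
    rw [hG, hH]
    have e2 : ft (fun x => (a - b) * Pool.Agent.X331.SI.ind A x + b) ξ =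
        (a - b) * Pool.Agent.Results.MP_6cbfb8_an.RidgeDensities.ft
          (Pool.Agent.X331.SI.ind A) ξ + ft (fun _ => b) ξ := by
      have e3 := Pool.Agent.X93.ST.ft_add (hi1.const_mul (a - b)) (integrable_const b) ξ
      have e4 := Pool.Agent.X93.ST.ft_smul (Pool.Agent.X331.SI.ind A) (a - b) ξ
      rw [← e4]
      exact e3
    rw [e2]
    field_simp
    ring
  rw [e1]
  exact (h3.sub h6).const_mul _

theorem real_criterion (n : ℕ) (hn : 3 ≤ n) : RealCriterion n := by
  rintro Φ hΦ F hF ⟨M, hM⟩ T hT hper ⟨s, t, hst⟩ p hp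
  constructor
  · rintro h f hf
    exact h _ (hF.comp hf.1) ⟨M, fun x => hM _⟩
  · intro h
    refine stein_of n hn p hp (F s) (F t) hst fun A hA => ?_
    classical
    have hf : Measurable fun x : sphere (0 : E n) 1 => if x ∈ A then s else t :=
      Measurable.ite hA measurable_const measurable_const
    obtain ⟨k, -, h1, -⟩ := shifts n hn Φ hΦ p hp 1 one_pos T hT _ hf
    have hP : Function.Periodic F T := hper
    refine ⟨_, fun x hx => ?_, fun x hx => ?_, h _ h1⟩
    · have h2 := hP.int_mul (k x) s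
      simp only [if_pos hx]
      exact h2
    · have h2 := hP.int_mul (k x) t
      simp only [if_neg hx]
      exact h2

theorem integer_criterion (n : ℕ) (hn : 3 ≤ n) : IntegerCriterion n := by
  rintro Φ hΦ F m hm hper ⟨i, j, hij⟩ p hp
  have hP : Function.Periodic F (m : ℤ) := hper
  have hmod : ∀ a b : ℤ, a ≡ b [ZMOD m] → F a = F b := by
    intro a b hab
    obtain ⟨c, hc⟩ := Int.modEq_iff_dvd.1 hab
    have h1 : b = a + c * m := by linarith
    rw [h1]
    have h2 := hP.int_mul c a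
    simpa using h2.symm
  constructor
  · intro h k hk _
    refine h _ ((measurable_from_top (f := F)).comp hk)
      ⟨∑ r ∈ Finset.range m, ‖F r‖, fun x => ?_⟩
    have h1 : F (k x) = F ((k x % m).toNat : ℕ) := by
      refine hmod _ _ ?_
      have h2 : 0 ≤ k x % m := Int.emod_nonneg _ (by exact_mod_cast hm.ne')
      rw [Int.toNat_of_nonneg h2]
      exact (Int.mod_modEq _ _).symm
    rw [h1]
    refine Finset.single_le_sum (f := fun r : ℕ => ‖F r‖) (fun _ _ => norm_nonneg _) ?_
    rw [Finset.mem_range]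
    have h3 : k x % m < m := Int.emod_lt_of_pos _ (by exact_mod_cast hm)
    have h2 : 0 ≤ k x % m := Int.emod_nonneg _ (by exact_mod_cast hm.ne')
    omega
  · intro h
    refine stein_of n hn p hp (F i) (F j) hij fun A hA => ?_
    classical
    have hf : Measurable fun x : sphere (0 : E n) 1 => if x ∈ A then i else j :=
      Measurable.ite hA measurable_const measurable_const
    obtain ⟨k, hk, h1, h2, -⟩ := residues n hn Φ hΦ p hp 1 one_pos m hm _ hf
    refine ⟨fun x => F (k x), fun x hx => ?_, fun x hx => ?_, h k hk h2⟩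
    · have h3 := h1 x
      rw [if_pos hx] at h3
      exact hmod _ _ h3
    · have h3 := h1 x
      rw [if_neg hx] at h3
      exact hmod _ _ h3

/-- **Theorem.** For `n ≥ 3`: the lifting theorems and the two criteria. -/
theorem result (n : ℕ) (hn : 3 ≤ n) :
    Shifts n ∧ Phases n ∧ Residues n ∧ RealCriterion n ∧ IntegerCriterion n :=
  ⟨shifts n hn, phases n hn, residues n hn, real_criterion n hn, integer_criterion n hn⟩

end Pool.Agent.Results.MP_6cbfb8_an.IntegerShifts
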