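import Mathlib
import Pool.Agent.X93.ST.RFin
set_option autoImplicit false

/-!
# Stein's restriction conjecture for almost every sign change of an arbitrary density

For `n ≥ 3` we construct an orthonormal basis `φ` of `L²(σ)`, `σ` the surface measure of the unit
sphere of `ℝ^n`, with the following property. Take ANY density `g` in `L²(σ)` (in particular any
bounded density), expand it in this basis and change the signs of the coefficients at random
(independent fair signs). Then almost surely the new density `g_ε` satisfies Stein's restriction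
conjecture in the full range: the Fourier transform of `g_ε dσ` is in `L^p(ℝ^n)` for all
`p > 2n/(n-1)`, and the expectation of the `p`-th power of its `L^p` norm is at most `C ‖g‖_2^p`.
For a single density in `L²(σ)` this is false below the Stein-Tomas exponent.

The basis consists of trigonometric polynomials (restricted to the sphere) the coefficients of
which have absolute sums at most `K`, with `K` depending on `n` only. It is found by an Olevskii
type construction: each given trigonometric polynomial is mixed, by a Haar-like orthogonal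
transformation, with many exponentials of very high frequency.
-/

namespace Pool.Agent.Results.MP_6cbfb8_an.RandomSigns

open MeasureTheory Metric ProbabilityTheory
open scoped ENNReal RealInnerProductSpace

/-- Euclidean space -/
abbrev E (n : ℕ) := EuclideanSpace ℝ (Fin n)

/-- densities on the unit sphere -/
abbrev Den (n : ℕ) := sphere (0 : E n) 1 → ℂ

/-- surface measure on the unit sphere -/
noncomputable def sigma (n : ℕ) : Measure (sphere (0 : E n) 1) := (volume : Measure (E n)).toSphere

/-- the Fourier transform of the measure `g dσ` -/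
noncomputable def ft {n : ℕ} (g : Den n) (ξ : E n) : ℂ :=
  ∫ x, Complex.exp (-(2 * Real.pi * ⟪(x : E n), ξ⟫ : ℝ) * Complex.I) * g x ∂(sigma n)

/-- the scalar product `⟨φ, g⟩` in `L²(σ)` -/
noncomputable def coef {n : ℕ} (φ g : Den n) : ℂ := ∫ x, (starRingEnd ℂ) (φ x) * g x ∂(sigma n)

/-- `φ` is an orthonormal basis of `L²(σ)` -/
def IsBasis {n : ℕ} (φ : ℕ → Den n) : Prop :=
  (∀ k, MemLp (φ k) 2 (sigma n)) ∧ (∀ j k, coef (φ j) (φ k) = if j = k then 1 else 0) ∧
    ∀ g : Den n, MemLp g 2 (sigma n) → (∀ k, coef (φ k) g = 0) → ∀ᵐ x ∂(sigma n), g x = 0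

/-- a trigonometric polynomial on the sphere, with absolute coefficient sum at most `K` -/
def IsTrig {n : ℕ} (K : ℝ) (v : Den n) : Prop :=
  ∃ (L : ℕ) (c : Fin L → ℂ) (η : Fin L → E n), ∑ j, ‖c j‖ ≤ K ∧
    ∀ x, v x = ∑ j, c j * Complex.exp ((⟪η j, (x : E n)⟫ : ℝ) * Complex.I)

/-- `true` stands for the sign `+`, `false` for the sign `-` -/
noncomputable def sgn (t : Bool) : ℂ := if t then 1 else -1

/-- `h` is the density obtained from `g` by changing the signs of its coefficients in the basis
`φ`, by the signs `s` -/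
def Changed {n : ℕ} (φ : ℕ → Den n) (s : ℕ → Bool) (g h : Den n) : Prop :=
  MemLp h 2 (sigma n) ∧ ∀ k, coef (φ k) h = sgn (s k) * coef (φ k) g

/-- independent fair signs on a probability space -/
def FairSigns {Ω : Type} [MeasurableSpace Ω] (P : Measure Ω) (β : ℕ → Ω → Bool) : Prop :=
  IsProbabilityMeasure P ∧ (∀ k, Measurable (β k)) ∧ iIndepFun β P ∧
    ∀ k, P {ω | β k ω = true} = 1 / 2

/-- the expectation of the `p`-th power of the `L^p` norm is at most `C ‖g‖_2^p` -/
def MeanBound {n : ℕ} (φ : ℕ → Den n) (p C : ℝ) : Prop :=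
  ∀ (Ω : Type) (_ : MeasurableSpace Ω) (P : Measure Ω) (β : ℕ → Ω → Bool), FairSigns P β →
    ∀ g : Den n, MemLp g 2 (sigma n) →
    ∀ h : Ω → Den n, (∀ ω, Changed φ (fun k => β k ω) g (h ω)) →
      ∫⁻ ω, (∫⁻ ξ, ‖ft (h ω) ξ‖ₑ ^ p) ∂P ≤ ENNReal.ofReal C * (eLpNorm g 2 (sigma n)) ^ p

/-- almost surely the Fourier transform is in `L^p` for every `p > 2n/(n-1)` -/
def AlmostSure {n : ℕ} (φ : ℕ → Den n) : Prop :=
  ∀ (Ω : Type) (_ : MeasurableSpace Ω) (P : Measure Ω) (β : ℕ → Ω → Bool), FairSigns P β →
    ∀ g : Den n, MemLp g 2 (sigma n) →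
    ∀ h : Ω → Den n, (∀ ω, Changed φ (fun k => β k ω) g (h ω)) →
      ∀ᵐ ω ∂P, ∀ p : ℝ, 2 * (n : ℝ) / (n - 1) < p → MemLp (ft (h ω)) (ENNReal.ofReal p)

/-- **Theorem.** For every `n ≥ 3` there is an orthonormal basis `φ` of `L²(σ)` consisting of
trigonometric polynomials with absolute coefficient sums at most `K` such that, for every `g` in
`L²(σ)` and independent fair signs, the density with changed signs (it exists for all signs) has
the following properties:

* for every `p > 2n/(n-1)` the expectation of the `p`-th power of the `L^p(ℝ^n)` norm of its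
  Fourier transform is at most `C ‖g‖_2^p`, where `C` depends on `n` and `p` only;
* almost surely its Fourier transform is in `L^p(ℝ^n)` for all `p > 2n/(n-1)`. -/
theorem result (n : ℕ) (hn : 3 ≤ n) : ∃ K : ℝ, 0 < K ∧ ∃ φ : ℕ → Den n,
    IsBasis φ ∧ (∀ k, IsTrig K (φ k)) ∧
    (∀ (g : Den n), MemLp g 2 (sigma n) → ∀ s : ℕ → Bool, ∃ h : Den n, Changed φ s g h) ∧
    (∀ p : ℝ, 2 * (n : ℝ) / (n - 1) < p → ∃ C : ℝ, 0 < C ∧ MeanBound φ p C) ∧
    AlmostSure φ :=
  Pool.Agent.X93.ST.RFin.final n hn

end Pool.Agent.Results.MP_6cbfb8_an.RandomSigns
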