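import Mathlib
import Pool.Agent.X93.ST.Main
set_option autoImplicit false

/-!
# Stein's restriction conjecture after a correction on a set of small measure

We prove a correction theorem of Menshov type for the sphere: every measurable density on the unit
sphere of `ℝ^n`, `n ≥ 3`, can be changed on a set of arbitrarily small surface measure so that the
new density is bounded and satisfies Stein's restriction conjecture in the full range
`p > 2n/(n-1)`. Moreover, for a given exponent `p₀ > 2n/(n-1)`, all the norms of the new Fourier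
transform in `L^r(ℝ^n)`, `p₀ ≤ r ≤ ∞`, can be made arbitrarily small, and the bound for the new
density depends only on the size of the exceptional set, not on these norms.
-/

namespace Pool.Agent.Results.MP_6cbfb8_an.SmallSetCorrection

open MeasureTheory Metric
open scoped ENNReal RealInnerProductSpace

/-- Euclidean space -/
abbrev E (n : ℕ) := EuclideanSpace ℝ (Fin n)

/-- surface measure on the unit sphere -/
noncomputable def sigma (n : ℕ) : Measure (sphere (0 : E n) 1) := (volume : Measure (E n)).toSphere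

/-- the Fourier transform of the measure `g dσ` -/
noncomputable def ft {n : ℕ} (g : sphere (0 : E n) 1 → ℂ) (ξ : E n) : ℂ :=
  ∫ x, Complex.exp (-(2 * Real.pi * ⟪(x : E n), ξ⟫ : ℝ) * Complex.I) * g x ∂(sigma n)

/-- **Correction theorem.** Let `n ≥ 3`. There is a constant `C` such that for every measurable `g`
on the sphere, every `M > 0`, `0 < ε ≤ 1`, `p₀ > 2n/(n-1)` and `η > 0` there is a measurable `h`
with

* `|h| ≤ C M / ε` everywhere;
* `h = g` outside a set of measure at most `ε + σ{|g| > M}`;
* the Fourier transform of `h dσ` is in `L^p(ℝ^n)` for every `p > 2n/(n-1)`;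
* its norm in `L^r(ℝ^n)` is at most `η` for every `r` with `p₀ ≤ r ≤ ∞`. -/
theorem result (n : ℕ) (hn : 3 ≤ n) : ∃ C : ℝ, 0 < C ∧
    ∀ g : sphere (0 : E n) 1 → ℂ, Measurable g → ∀ M : ℝ, 0 < M → ∀ ε : ℝ, 0 < ε → ε ≤ 1 →
    ∀ p₀ : ℝ, 2 * (n : ℝ) / (n - 1) < p₀ → ∀ η : ℝ, 0 < η →
    ∃ h : sphere (0 : E n) 1 → ℂ, Measurable h ∧ (∀ x, ‖h x‖ ≤ C * M / ε) ∧
      sigma n {x | h x ≠ g x} ≤ ENNReal.ofReal ε + sigma n {x | M < ‖g x‖} ∧
      (∀ p : ℝ, 2 * (n : ℝ) / (n - 1) < p → MemLp (ft h) (ENNReal.ofReal p)) ∧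
      ∀ r : ℝ≥0∞, ENNReal.ofReal p₀ ≤ r → eLpNorm (ft h) r volume ≤ ENNReal.ofReal η :=
  Pool.Agent.X93.ST.correction n hn

end Pool.Agent.Results.MP_6cbfb8_an.SmallSetCorrection
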